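import Mathlib
import Pool.Agent.N848.LT.Stm

/-!
# Project LT (helper848), DEG (helper700): degrees of the composite
-/

set_option autoImplicit false

namespace Pool.Agent.N700.LT

open NumberField IsDedekindDomain Module

theorem deg_le (k F K : Type) [Field k] [NumberField k] [Field F] [NumberField F]
    [Field K] [NumberField K] [Algebra k K] [Algebra F K]
    (h : IntermediateField.adjoin k (Set.range (algebraMap F K)) = ⊤) :
    finrank k K ≤ finrank ℚ F := by
  obtain ⟨α, hα⟩ := Field.exists_primitive_element ℚ F
  have hint : IsIntegral k (algebraMap F K α) := Algebra.IsIntegral.isIntegral _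
  have hintQ : IsIntegral ℚ (algebraMap F K α) := Algebra.IsIntegral.isIntegral _
  have htop : IntermediateField.adjoin k {algebraMap F K α} = ⊤ := by
    rw [eq_top_iff, ← h, IntermediateField.adjoin_le_iff]
    rintro _ ⟨x, rfl⟩
    have h1 : IntermediateField.adjoin ℚ {α} ≤
        ((IntermediateField.adjoin k {algebraMap F K α}).restrictScalars ℚ).comap
          (IsScalarTower.toAlgHom ℚ F K) := by
      rw [IntermediateField.adjoin_le_iff, Set.singleton_subset_iff]
      exact IntermediateField.mem_adjoin_simple_self k (algebraMap F K α)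
    rw [hα] at h1
    exact h1 (x := x) trivial
  have h2 : finrank k K = (minpoly k (algebraMap F K α)).natDegree := by
    rw [← IntermediateField.adjoin.finrank hint, htop]
    exact (IntermediateField.finrank_top').symm
  have h3 : finrank ℚ F = (minpoly ℚ α).natDegree := by
    rw [← IntermediateField.adjoin.finrank (Algebra.IsIntegral.isIntegral _), hα]
    exact (IntermediateField.finrank_top').symm
  have h4 : minpoly ℚ (algebraMap F K α) = minpoly ℚ α :=
    minpoly.algebraMap_eq (algebraMap F K).injective α
  rw [h2, h3, ← h4, ← Polynomial.natDegree_map (algebraMap ℚ k)]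
  refine Polynomial.natDegree_le_of_dvd (minpoly.dvd_map_of_isScalarTower ℚ k _) ?_
  exact Polynomial.map_ne_zero (minpoly.ne_zero hintQ)

theorem t_DEG : Pool.Agent.N848.LT.S_DEG := by
  intro r k F K _ _ _ _ _ _ _ _ _ h2 h3 h4
  have e1 : finrank ℚ k * finrank k K = finrank ℚ K := finrank_mul_finrank ℚ k K
  have e2 : finrank ℚ F * finrank F K = finrank ℚ K := finrank_mul_finrank ℚ F K
  have e3 := deg_le k F K h3
  rw [h2] at e2 e3
  have e4 : 2 ^ r ∣ finrank k K := by
    have h5 : 2 ^ r ∣ finrank ℚ k * finrank k K := ⟨_, e1.trans e2.symm⟩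
    have h6 : Nat.Coprime (2 ^ r) (finrank ℚ k) :=
      Nat.Coprime.pow_left r ((Nat.coprime_two_left).2 h4)
    exact h6.dvd_of_dvd_mul_left h5
  have e5 : 0 < finrank k K := finrank_pos
  have e6 : finrank k K = 2 ^ r := le_antisymm e3 (Nat.le_of_dvd e5 e4)
  refine ⟨?_, e6⟩
  rw [e6, mul_comm, ← e2] at e1
  exact (Nat.eq_of_mul_eq_mul_left (by positivity) e1).symm

end Pool.Agent.N700.LT
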